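import Pool.Agent.H92.RR.Targets
import Pool.Agent.H58.MT.BCL

/-!
# Almost sure convergence along all `N` (row RAS of the board rr_modules)
-/

set_option autoImplicit false

open MeasureTheory ProbabilityTheory Filter Topology Finset
open scoped ENNReal

universe u

namespace Pool.Agent.H75.RR

open Pool.Agent.H89.MT Pool.Agent.H92.RR
open Pool.Agent.H58.MT (scale_ge scale_three scale_tendsto)

/-- Random variables with summable second moments tend to `0` almost surely. -/
theorem ae_tendsto_of_sq {Ω : Type u} [MeasurableSpace Ω] {P : Measure Ω}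
    [IsProbabilityMeasure P] (W : ℕ → Ω → ℝ) (hWm : ∀ j, Measurable (W j)) (C : ℝ)
    (hWb : ∀ j ω, |W j ω| ≤ C) (hsum : Summable fun j => ∫ ω, W j ω ^ 2 ∂P) :
    ∀ᵐ ω ∂P, Tendsto (fun j => W j ω) atTop (𝓝 0) := by
  have hf0 : ∀ j ω, 0 ≤ W j ω ^ 2 := fun j ω => sq_nonneg _
  have hfm : ∀ j, Measurable fun ω => W j ω ^ 2 := fun j => (hWm j).pow_const _
  have hfi : ∀ j, Integrable (fun ω => W j ω ^ 2) P := by
    intro j
    refine Integrable.of_bound (C := C ^ 2) (hfm j).aestronglyMeasurable ?_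
    refine Eventually.of_forall fun ω => ?_
    rw [Real.norm_eq_abs, abs_pow]
    exact pow_le_pow_left₀ (abs_nonneg _) (hWb j ω) _
  have hlin : ∫⁻ ω, ∑' j, ENNReal.ofReal (W j ω ^ 2) ∂P ≠ ⊤ := by
    rw [lintegral_tsum fun j => (hfm j).ennreal_ofReal.aemeasurable]
    have h1 : ∀ j, ∫⁻ ω, ENNReal.ofReal (W j ω ^ 2) ∂P =
        ENNReal.ofReal (∫ ω, W j ω ^ 2 ∂P) := by
      intro j
      exact (ofReal_integral_eq_lintegral_ofReal (hfi j)
        (Eventually.of_forall (hf0 j))).symm
    simp_rw [h1]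
    rw [← ENNReal.ofReal_tsum_of_nonneg (fun j => integral_nonneg (hf0 j)) hsum]
    exact ENNReal.ofReal_ne_top
  have hae := ae_lt_top' (Measurable.ennreal_tsum fun j => (hfm j).ennreal_ofReal).aemeasurable
    hlin
  filter_upwards [hae] with ω hω
  have h1 := ENNReal.tendsto_atTop_zero_of_tsum_ne_top hω.ne
  have h2 : Tendsto (fun j => W j ω ^ 2) atTop (𝓝 0) := by
    have h3 := (ENNReal.tendsto_toReal ENNReal.zero_ne_top).comp h1
    rw [ENNReal.toReal_zero] at h3
    refine h3.congr fun j => ?_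
    simp only [Function.comp]
    exact ENNReal.toReal_ofReal (hf0 j ω)
  rw [Metric.tendsto_atTop]
  intro ε hε
  have h3 : ∀ᶠ j in atTop, W j ω ^ 2 < ε ^ 2 := h2.eventually (gt_mem_nhds (by positivity))
  obtain ⟨j0, hj0⟩ := eventually_atTop.1 h3
  refine ⟨j0, fun j hj => ?_⟩
  rw [Real.dist_0_eq_abs]
  have h4 := hj0 j hj
  rw [← sq_abs] at h4
  exact lt_of_pow_lt_pow_left₀ _ hε.le h4

theorem loglog_scale (k j : ℕ) : (j : ℝ) / (k + 1) ≤ Real.log (Real.log (scale k j)) := by
  have hlog1 : Real.exp ((j : ℝ) / (k + 1)) ≤ Real.log (scale k j) := by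
    rw [Real.le_log_iff_exp_le (by have := scale_three k j; positivity)]
    exact scale_ge k j
  rw [Real.le_log_iff_exp_le (lt_of_lt_of_le (Real.exp_pos _) hlog1)]
  exact hlog1

theorem pf_AS (hINT : Pool.Agent.H89.MT.T_INT) : T_AS.{u} := by
  intro Ω _ P _ x hxm hxb S hS C c hC hc hW δ hδ hK
  have hscale : ∀ k : ℕ, ∀ᵐ ω ∂P, Tendsto (fun j => lavg (scale k j) (x ω)) atTop (𝓝 0) := by
    intro k
    have hk : (0 : ℝ) < (k : ℝ) + 1 := by positivity
    obtain ⟨y, hy⟩ : ∃ y : ℕ → ℕ, y = fun j =>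
      max 1 ⌊Real.log (Real.log (scale k j)) ^ (1 + δ)⌋₊ := ⟨_, rfl⟩
    have hy1 : ∀ j, 1 ≤ y j := by
      intro j
      rw [hy]
      exact le_max_left _ _
    choose W hWm hWb hWi hWl using fun j => hW (y j) (scale k j) (hy1 j) (scale_three k j)
    -- the second moments are summable
    have hybig : ∀ j : ℕ, 0 < j →
        1 / (y j : ℝ) ≤ 2 * ((k : ℝ) + 1) ^ (1 + δ) * (1 / (j : ℝ) ^ (1 + δ)) := by
      intro j hj
      have hj' : (0 : ℝ) < (j : ℝ) := by exact_mod_cast hj
      have h1 := loglog_scale k j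
      have h0 : (0 : ℝ) < (j : ℝ) / (k + 1) := by positivity
      have h2 : ((j : ℝ) / (k + 1)) ^ (1 + δ) ≤ Real.log (Real.log (scale k j)) ^ (1 + δ) :=
        Real.rpow_le_rpow h0.le h1 (by linarith)
      have h3 := Nat.lt_floor_add_one (Real.log (Real.log (scale k j)) ^ (1 + δ))
      have h4 : (⌊Real.log (Real.log (scale k j)) ^ (1 + δ)⌋₊ : ℝ) ≤ y j := by
        rw [hy]
        exact_mod_cast le_max_right _ _
      have h5 : (1 : ℝ) ≤ y j := by exact_mod_cast hy1 j
      have h6 : ((j : ℝ) / (k + 1)) ^ (1 + δ) ≤ 2 * y j := by linarith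
      have h7 : ((j : ℝ) / (k + 1)) ^ (1 + δ) = (j : ℝ) ^ (1 + δ) / ((k : ℝ) + 1) ^ (1 + δ) :=
        Real.div_rpow hj'.le hk.le _
      rw [h7] at h6
      have hjp : (0 : ℝ) < (j : ℝ) ^ (1 + δ) := Real.rpow_pos_of_pos hj' _
      have hkp : (0 : ℝ) < ((k : ℝ) + 1) ^ (1 + δ) := Real.rpow_pos_of_pos hk _
      rw [div_le_iff₀ hkp] at h6
      rw [mul_one_div, div_le_div_iff₀ (by linarith) hjp]
      linarith
    have hsum : Summable fun j => ∫ ω, W j ω ^ 2 ∂P := by
      refine Summable.of_norm_bounded_eventually_nat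
        (g := fun j : ℕ => C * (2 * ((k : ℝ) + 1) ^ (1 + δ) * (1 / (j : ℝ) ^ (1 + δ)))) ?_ ?_
      · exact ((Real.summable_one_div_nat_rpow.2 (by linarith)).mul_left _).mul_left _
      · filter_upwards [eventually_gt_atTop 0] with j hj
        rw [Real.norm_eq_abs, abs_of_nonneg (integral_nonneg fun ω => sq_nonneg _)]
        refine (hWi j).trans ?_
        rw [div_eq_mul_one_div]
        exact mul_le_mul_of_nonneg_left (hybig j hj) hC.le
    have hWt := ae_tendsto_of_sq W hWm C hWb hsum
    -- the deterministic part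
    have hdet : Tendsto (fun j => C * Real.exp (-(c * (S (scale k j) - S (y j))))) atTop
        (𝓝 0) := by
      have h1 : Tendsto (fun j => S (scale k j) - S (y j)) atTop atTop := by
        rw [tendsto_atTop]
        intro K
        have h2 : ∀ᶠ j : ℕ in atTop, k + 1 ≤ j := eventually_ge_atTop _
        filter_upwards [(scale_tendsto k).eventually (hK K), h2] with j hj hjk
        have h3 : y j = ⌊Real.log (Real.log (scale k j)) ^ (1 + δ)⌋₊ := by
          rw [hy]
          refine max_eq_right ?_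
          rw [Nat.one_le_floor_iff]
          refine Real.one_le_rpow ?_ (by linarith)
          refine le_trans ?_ (loglog_scale k j)
          rw [le_div_iff₀ hk, one_mul]
          exact_mod_cast hjk
        rw [h3]
        exact hj
      have h2 : Tendsto (fun j => -(c * (S (scale k j) - S (y j)))) atTop atBot :=
        tendsto_neg_atTop_atBot.comp (h1.const_mul_atTop hc)
      have h3 := (Real.tendsto_exp_atBot.comp h2).const_mul C
      rw [mul_zero] at h3
      exact h3
    filter_upwards [hWt] with ω hω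
    have h1 : Tendsto (fun j => |W j ω| + C * Real.exp (-(c * (S (scale k j) - S (y j)))))
        atTop (𝓝 0) := by
      have h2 := hω.abs.add hdet
      rw [abs_zero, add_zero] at h2
      exact h2
    refine squeeze_zero_norm (fun j => ?_) h1
    rw [Real.norm_eq_abs]
    have h3 := hWl j ω
    have h4 : |lavg (scale k j) (x ω)| ≤ |lavg (scale k j) (x ω) - W j ω| + |W j ω| := by
      have h5 := abs_add_le (lavg (scale k j) (x ω) - W j ω) (W j ω)
      rwa [sub_add_cancel] at h5
    linarith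
  have hall := ae_all_iff.2 hscale
  filter_upwards [hall] with ω hω
  exact hINT (x ω) (hxb ω) hω

end Pool.Agent.H75.RR
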