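import Pool.Agent.H92.RR.Targets
import Pool.Agent.H86.MT.EXP

/-!
# Factorisation over the primes, independence (rows RFAC, RIND of the board rr_modules)
-/

set_option autoImplicit false

open MeasureTheory ProbabilityTheory Filter Topology Finset

universe u

namespace Pool.Agent.H75.RR

open Pool.Agent.H89.MT Pool.Agent.H92.RR

theorem u_prod {u : ℕ → I1} (hu : IsMult u) {m M : ℕ} (hm : 0 < m) (hmM : m ≤ M) :
    (u m : ℝ) = ∏ p ∈ pr M, (u (p ^ m.factorization p) : ℝ) := by
  rw [Pool.Agent.H86.MT.mult_prod u hu hm.ne']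
  refine Finset.prod_subset ?_ ?_
  · intro p hp
    rw [Nat.mem_primeFactors] at hp
    rw [pr, mem_filter, mem_Icc]
    exact ⟨⟨hp.1.one_lt.le, (Nat.le_of_dvd hm hp.2.1).trans hmM⟩, hp.1⟩
  · intro p _ hp
    rw [← Nat.support_factorization, Finsupp.notMem_support_iff] at hp
    rw [hp, pow_zero]
    exact hu.1

theorem pf_FAC : T_FAC := by
  intro u hu H a M n hn hM
  unfold mono phi
  rw [Finset.prod_comm]
  refine Finset.prod_congr rfl fun h hh => ?_
  rw [Finset.prod_pow, ← u_prod hu (by omega) (hM h hh)]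

theorem pf_IND : T_IND.{u} := by
  classical
  intro Ω _ P _ u hu S hS g hg
  obtain ⟨φ, hφ⟩ : ∃ φ : S → Nat.Primes, ∀ p, ((φ p : Nat.Primes) : ℕ) = p :=
    ⟨fun p => ⟨p.1, hS p.1 p.2⟩, fun p => rfl⟩
  have hφi : Function.Injective φ := by
    intro p q hpq
    have h1 : (p : ℕ) = q := by rw [← hφ p, ← hφ q, hpq]
    exact Subtype.ext h1
  have hXind : iIndepFun (fun (p : S) ω (k : ℕ) => u ω ((p : ℕ) ^ (k + 1))) P := by
    have h1 := hu.indep.precomp hφi
    have h2 : (fun (p : Nat.Primes) ω (k : ℕ) => u ω ((p : ℕ) ^ (k + 1))) ∘ φ =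
        fun (p : S) ω (k : ℕ) => u ω ((p : ℕ) ^ (k + 1)) := by
      funext p ω k
      show u ω (((φ p : Nat.Primes) : ℕ) ^ (k + 1)) = _
      rw [hφ]
    rw [← h2]
    exact h1
  have hXm : ∀ p : S, Measurable fun ω (k : ℕ) => u ω ((p : ℕ) ^ (k + 1)) := by
    intro p
    rw [measurable_pi_iff]
    intro k
    exact hu.meas _
  have h1 := iIndepFun.integral_fun_prod_comp hXind (fun p => (hXm p).aemeasurable)
    (f := fun p : S => g p) (fun p => (hg p).aestronglyMeasurable)
  rw [← Finset.prod_coe_sort S (fun p => ∫ ω, g p (fun k => u ω (p ^ (k + 1))) ∂P), ← h1]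
  refine integral_congr_ae (Eventually.of_forall fun ω => ?_)
  exact (Finset.prod_coe_sort S (fun p => g p (fun k => u ω (p ^ (k + 1))))).symm

end Pool.Agent.H75.RR
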