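import Pool.Agent.H92.RR.Targets

/-!
# Orthogonality (row RORT of the board rr_modules)
-/

set_option autoImplicit false
set_option linter.unusedSectionVars false

open MeasureTheory ProbabilityTheory Filter Topology Finset

universe u

namespace Pool.Agent.H75.RR

open Pool.Agent.H89.MT Pool.Agent.H92.RR

/-- the contribution of a prime as a function of the values at its powers -/
noncomputable def psi (H : Finset ℕ) (a : ℕ → ℕ) (p n : ℕ) (x : ℕ → I1) : ℝ :=
  ∏ h ∈ H, (if (n + h).factorization p = 0 then 1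
    else (x ((n + h).factorization p - 1) : ℝ)) ^ a h

theorem psi_meas (H : Finset ℕ) (a : ℕ → ℕ) (p n : ℕ) : Measurable (psi H a p n) := by
  unfold psi
  refine Finset.measurable_prod _ fun h _ => Measurable.pow_const ?_ _
  split_ifs
  · exact measurable_const
  · exact measurable_subtype_coe.comp (measurable_pi_apply _)

theorem psi_eq {u : ℕ → I1} (hu : IsMult u) (H : Finset ℕ) (a : ℕ → ℕ) (p n : ℕ) :
    psi H a p n (fun k => u (p ^ (k + 1))) = phi u H a p n := by
  unfold psi phi
  refine Finset.prod_congr rfl fun h _ => ?_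
  by_cases h0 : (n + h).factorization p = 0
  · rw [if_pos h0, h0, pow_zero]
    rw [hu.1]
  · rw [if_neg h0]
    dsimp only
    rw [Nat.sub_add_cancel (Nat.one_le_iff_ne_zero.2 h0)]

theorem psi_abs (H : Finset ℕ) (a : ℕ → ℕ) (p n : ℕ) (x : ℕ → I1) : |psi H a p n x| ≤ 1 := by
  unfold psi
  rw [Finset.abs_prod]
  refine Finset.prod_le_one (fun _ _ => abs_nonneg _) fun h _ => ?_
  rw [abs_pow]
  refine pow_le_one₀ (abs_nonneg _) ?_
  split_ifs
  · simp
  · exact abs_le.2 (x _).2

/-- the expectation -/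
noncomputable def ee {Ω : Type u} [MeasurableSpace Ω] (P : Measure Ω) (u : Ω → ℕ → I1)
    (H : Finset ℕ) (a : ℕ → ℕ) (p n : ℕ) : ℝ := ∫ ω, phi (u ω) H a p n ∂P

theorem phi_abs {u : ℕ → I1} (hu : IsMult u) (H : Finset ℕ) (a : ℕ → ℕ) (p n : ℕ) :
    |phi u H a p n| ≤ 1 := by
  rw [← psi_eq hu]
  exact psi_abs _ _ _ _ _

variable {Ω : Type u} [MeasurableSpace Ω] {P : Measure Ω} [IsProbabilityMeasure P]
  {u : Ω → ℕ → I1}

theorem phi_meas (hu : RandomReal P u) (H : Finset ℕ) (a : ℕ → ℕ) (p n : ℕ) :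
    Measurable fun ω => phi (u ω) H a p n := by
  have h1 : (fun ω => phi (u ω) H a p n) =
      fun ω => psi H a p n (fun k => u ω (p ^ (k + 1))) := by
    funext ω
    rw [psi_eq (hu.mult ω)]
  rw [h1]
  refine (psi_meas H a p n).comp ?_
  rw [measurable_pi_iff]
  intro k
  exact hu.meas _

theorem ee_abs (hu : RandomReal P u) (H : Finset ℕ) (a : ℕ → ℕ) (p n : ℕ) :
    |ee P u H a p n| ≤ 1 := by
  unfold ee
  have h := norm_integral_le_of_norm_le_const (μ := P) (C := 1)
    (f := fun ω => phi (u ω) H a p n)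
    (Filter.Eventually.of_forall fun ω => by
      rw [Real.norm_eq_abs]
      exact phi_abs (hu.mult ω) H a p n)
  rw [Real.norm_eq_abs] at h
  simpa using h

/-- the factors: `s = true` for the monomial, `s = false` for the conditioned monomial -/
noncomputable def fc (P : Measure Ω) (u : Ω → ℕ → I1) (H : Finset ℕ) (a : ℕ → ℕ) (y : ℕ)
    (s : Bool) (p n : ℕ) (x : ℕ → I1) : ℝ :=
  if p ≤ y ∨ s = true then psi H a p n x else ee P u H a p n

theorem fc_meas (H : Finset ℕ) (a : ℕ → ℕ) (y : ℕ) (s : Bool) (p n : ℕ) :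
    Measurable (fc P u H a y s p n) := by
  unfold fc
  split_ifs
  · exact psi_meas H a p n
  · exact measurable_const

theorem fc_abs (hu : RandomReal P u) (H : Finset ℕ) (a : ℕ → ℕ) (y : ℕ) (s : Bool) (p n : ℕ)
    (x : ℕ → I1) : |fc P u H a y s p n x| ≤ 1 := by
  unfold fc
  split_ifs
  · exact psi_abs _ _ _ _ _
  · exact ee_abs hu _ _ _ _

/-- the values at the powers of `p` -/
def vp (u : Ω → ℕ → I1) (p : ℕ) (ω : Ω) : ℕ → I1 := fun k => u ω (p ^ (k + 1))

theorem vp_meas (hu : RandomReal P u) (p : ℕ) : Measurable (vp u p) := by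
  rw [measurable_pi_iff]
  intro k
  exact hu.meas _

/-- the product of the factors -/
noncomputable def FF (P : Measure Ω) (u : Ω → ℕ → I1) (H : Finset ℕ) (a : ℕ → ℕ) (y M : ℕ)
    (s : Bool) (n : ℕ) (ω : Ω) : ℝ := ∏ p ∈ pr M, fc P u H a y s p n (vp u p ω)

theorem FF_true (hF : T_FAC) (hu : RandomReal P u) (H : Finset ℕ) (a : ℕ → ℕ) (y M n : ℕ)
    (hn : 0 < n) (hM : ∀ h ∈ H, n + h ≤ M) (ω : Ω) :
    FF P u H a y M true n ω = mono (u ω) H a n := by
  rw [hF (u ω) (hu.mult ω) H a M n hn hM]
  unfold FF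
  refine Finset.prod_congr rfl fun p _ => ?_
  unfold fc
  rw [if_pos (Or.inr rfl)]
  exact psi_eq (hu.mult ω) H a p n

theorem FF_false (hu : RandomReal P u) (H : Finset ℕ) (a : ℕ → ℕ) (y M n : ℕ) (ω : Ω) :
    FF P u H a y M false n ω = Pool.Agent.H92.RR.cond P u H a y M n ω := by
  unfold FF Pool.Agent.H92.RR.cond
  rw [← Finset.prod_filter_mul_prod_filter_not (pr M) (· ≤ y)]
  have h1 : (pr M).filter (fun p => ¬ p ≤ y) = (pr M).filter (y < ·) := by
    refine Finset.filter_congr fun p _ => ?_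
    exact not_le
  rw [h1]
  congr 1
  · refine Finset.prod_congr rfl fun p hp => ?_
    unfold fc
    rw [if_pos (Or.inl (mem_filter.1 hp).2)]
    exact psi_eq (hu.mult ω) H a p n
  · refine Finset.prod_congr rfl fun p hp => ?_
    unfold fc
    rw [if_neg]
    · rfl
    · rintro (h | h)
      · exact absurd (mem_filter.1 hp).2 (not_lt.2 h)
      · exact Bool.false_ne_true h

theorem FF_meas (hu : RandomReal P u) (H : Finset ℕ) (a : ℕ → ℕ) (y M : ℕ) (s : Bool) (n : ℕ) :
    Measurable (FF P u H a y M s n) := by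
  unfold FF
  exact Finset.measurable_prod _ fun p _ => (fc_meas H a y s p n).comp (vp_meas hu p)

theorem FF_abs (hu : RandomReal P u) (H : Finset ℕ) (a : ℕ → ℕ) (y M : ℕ) (s : Bool) (n : ℕ)
    (ω : Ω) : |FF P u H a y M s n ω| ≤ 1 := by
  unfold FF
  rw [Finset.abs_prod]
  exact Finset.prod_le_one (fun _ _ => abs_nonneg _) fun p _ => fc_abs hu H a y s p n _

theorem FF_int (hu : RandomReal P u) (H : Finset ℕ) (a : ℕ → ℕ) (y M : ℕ) (s s' : Bool)
    (n m : ℕ) : Integrable (fun ω => FF P u H a y M s n ω * FF P u H a y M s' m ω) P := by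
  refine Integrable.of_bound (C := 1)
    ((FF_meas hu H a y M s n).mul (FF_meas hu H a y M s' m)).aestronglyMeasurable
    (Filter.Eventually.of_forall fun ω => ?_)
  rw [Real.norm_eq_abs, abs_mul]
  exact mul_le_one₀ (FF_abs hu H a y M s n ω) (abs_nonneg _) (FF_abs hu H a y M s' m ω)

/-- if `p` does not divide `PP H n`, the contribution is `1` -/
theorem phi_one {u : ℕ → I1} (hu : IsMult u) (H : Finset ℕ) (a : ℕ → ℕ) {p n : ℕ}
    (hp : ¬ p ∣ PP H n) : phi u H a p n = 1 := by
  unfold phi
  refine Finset.prod_eq_one fun h hh => ?_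
  have h1 : ¬ p ∣ n + h := fun hd => hp (hd.trans (Finset.dvd_prod_of_mem _ hh))
  rw [Nat.factorization_eq_zero_of_not_dvd h1, pow_zero, hu.1, one_pow]

/-- the common value of the expectations -/
noncomputable def kk (P : Measure Ω) (u : Ω → ℕ → I1) (H : Finset ℕ) (a : ℕ → ℕ) (y n m p : ℕ) :
    ℝ :=
  if p ≤ y then ∫ ω, phi (u ω) H a p n * phi (u ω) H a p m ∂P
  else ee P u H a p n * ee P u H a p m

theorem one_prime (hu : RandomReal P u) (H : Finset ℕ) (a : ℕ → ℕ) (y : ℕ) (s s' : Bool)
    (n m p : ℕ) (hp : y < p → ¬ (p ∣ PP H n ∧ p ∣ PP H m)) :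
    ∫ ω, fc P u H a y s p n (vp u p ω) * fc P u H a y s' p m (vp u p ω) ∂P =
      kk P u H a y n m p := by
  have hpsi : ∀ n ω, psi H a p n (vp u p ω) = phi (u ω) H a p n := fun n ω =>
    psi_eq (hu.mult ω) H a p n
  by_cases hy : p ≤ y
  · unfold kk fc
    simp only [hy, true_or, if_true, hpsi]
  · have hy' : y < p := not_le.1 hy
    unfold kk
    rw [if_neg hy]
    have hone : ∀ n', ¬ p ∣ PP H n' → ee P u H a p n' = 1 := by
      intro n' h1
      unfold ee
      rw [integral_congr_ae (Filter.Eventually.of_forall fun ω =>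
        phi_one (hu.mult ω) H a h1)]
      simp
    have hphi : ∫ ω, phi (u ω) H a p n * phi (u ω) H a p m ∂P =
        ee P u H a p n * ee P u H a p m := by
      by_cases h1 : p ∣ PP H n
      · have h2 : ¬ p ∣ PP H m := fun h3 => hp hy' ⟨h1, h3⟩
        rw [hone m h2, mul_one]
        unfold ee
        refine integral_congr_ae (Filter.Eventually.of_forall fun ω => ?_)
        show phi (u ω) H a p n * phi (u ω) H a p m = _
        rw [phi_one (hu.mult ω) H a h2, mul_one]
      · rw [hone n h1, one_mul]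
        unfold ee
        refine integral_congr_ae (Filter.Eventually.of_forall fun ω => ?_)
        show phi (u ω) H a p n * phi (u ω) H a p m = _
        rw [phi_one (hu.mult ω) H a h1, one_mul]
    unfold fc
    rcases s with _ | _ <;> rcases s' with _ | _
    · simp only [hy, false_or, Bool.false_eq_true, if_false]
      simp
    · simp only [hy, false_or, Bool.false_eq_true, if_false, if_true, hpsi]
      rw [integral_const_mul]
      rfl
    · simp only [hy, false_or, Bool.false_eq_true, if_false, if_true, hpsi]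
      rw [integral_mul_const]
      rfl
    · simp only [hy, false_or, if_true, hpsi]
      exact hphi

theorem FF_integral (hI : T_IND.{u}) (hu : RandomReal P u) (H : Finset ℕ) (a : ℕ → ℕ)
    (y M : ℕ) (s s' : Bool) (n m : ℕ)
    (hp : ∀ p, p.Prime → y < p → ¬ (p ∣ PP H n ∧ p ∣ PP H m)) :
    ∫ ω, FF P u H a y M s n ω * FF P u H a y M s' m ω ∂P =
      ∏ p ∈ pr M, kk P u H a y n m p := by
  have hS : ∀ p ∈ pr M, p.Prime := fun p h => (mem_filter.1 h).2
  have h1 := hI Ω P u hu (pr M) hS
    (fun p x => fc P u H a y s p n x * fc P u H a y s' p m x)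
    (fun p => (fc_meas H a y s p n).mul (fc_meas H a y s' p m))
  have h2 : ∫ ω, FF P u H a y M s n ω * FF P u H a y M s' m ω ∂P =
      ∫ ω, ∏ p ∈ pr M, (fun p x => fc P u H a y s p n x * fc P u H a y s' p m x) p
        (fun k => u ω (p ^ (k + 1))) ∂P := by
    refine integral_congr_ae (Filter.Eventually.of_forall fun ω => ?_)
    show FF P u H a y M s n ω * FF P u H a y M s' m ω = _
    unfold FF
    rw [← Finset.prod_mul_distrib]
    rfl
  rw [h2, h1]
  exact Finset.prod_congr rfl fun p hpM => one_prime hu H a y s s' n m p (hp p (hS p hpM))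

theorem pf_ORT (hF : T_FAC) (hI : T_IND.{u}) : T_ORT.{u} := by
  intro Ω _ P _ u hu H a y M n m hn hm hnM hmM hp
  have h0 : ∀ ω, (mono (u ω) H a n - Pool.Agent.H92.RR.cond P u H a y M n ω) *
      (mono (u ω) H a m - Pool.Agent.H92.RR.cond P u H a y M m ω) =
      (FF P u H a y M true n ω * FF P u H a y M true m ω -
        FF P u H a y M true n ω * FF P u H a y M false m ω) -
      (FF P u H a y M false n ω * FF P u H a y M true m ω -
        FF P u H a y M false n ω * FF P u H a y M false m ω) := by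
    intro ω
    rw [FF_true hF hu H a y M n hn hnM, FF_true hF hu H a y M m hm hmM, FF_false hu,
      FF_false hu]
    ring
  rw [integral_congr_ae (Filter.Eventually.of_forall h0), integral_sub, integral_sub,
    integral_sub, FF_integral hI hu H a y M _ _ n m hp, FF_integral hI hu H a y M _ _ n m hp,
    FF_integral hI hu H a y M _ _ n m hp, FF_integral hI hu H a y M _ _ n m hp]
  · ring
  · exact FF_int hu H a y M _ _ n m
  · exact FF_int hu H a y M _ _ n m
  · exact FF_int hu H a y M _ _ n m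
  · exact FF_int hu H a y M _ _ n m
  · exact (FF_int hu H a y M _ _ n m).sub (FF_int hu H a y M _ _ n m)
  · exact (FF_int hu H a y M _ _ n m).sub (FF_int hu H a y M _ _ n m)

end Pool.Agent.H75.RR
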