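import Pool.Agent.H92.RR.Targets

/-!
# Odd powers, convergence in mean square (rows RPHI, RSQ of the board rr_modules)
-/

set_option autoImplicit false

open MeasureTheory ProbabilityTheory Filter Topology Finset

universe u

namespace Pool.Agent.H75.RR

open Pool.Agent.H89.MT Pool.Agent.H92.RR

theorem odd_pow_le {t : ℝ} (h1 : -1 ≤ t) (h2 : t ≤ 1) {a : ℕ} (ha : Odd a) :
    t ^ a ≤ 1 - (1 - t) / 2 := by
  have ha0 : a ≠ 0 := by
    rintro rfl
    exact absurd ha (by decide)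
  rcases le_or_gt 0 t with h | h
  · have h3 : t ^ a ≤ t := pow_le_of_le_one h h2 ha0
    linarith
  · have h3 : t ^ a ≤ 0 := (ha.pow_neg h).le
    linarith

theorem pf_PHI : T_PHI.{u} := by
  intro Ω _ P _ x hx a ha
  have hxm : Measurable fun ω => (x ω : ℝ) := measurable_subtype_coe.comp hx
  have hxi : Integrable (fun ω => (x ω : ℝ)) P := by
    refine Integrable.of_bound (C := 1) hxm.aestronglyMeasurable
      (Eventually.of_forall fun ω => ?_)
    rw [Real.norm_eq_abs]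
    exact abs_le.2 (x ω).2
  have hai : Integrable (fun ω => (x ω : ℝ) ^ a) P := by
    refine Integrable.of_bound (C := 1) (hxm.pow_const _).aestronglyMeasurable
      (Eventually.of_forall fun ω => ?_)
    rw [Real.norm_eq_abs, abs_pow]
    exact pow_le_one₀ (abs_nonneg _) (abs_le.2 (x ω).2)
  have h1 : ∫ ω, (x ω : ℝ) ^ a ∂P ≤ 1 - (1 - ∫ ω, (x ω : ℝ) ∂P) / 2 := by
    have h2 : ∫ ω, (x ω : ℝ) ^ a ∂P ≤ ∫ ω, (1 / 2 + (x ω : ℝ) * (1 / 2)) ∂P := by
      refine integral_mono hai ((integrable_const _).add (hxi.mul_const _)) fun ω => ?_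
      have := odd_pow_le (x ω).2.1 (x ω).2.2 ha
      show (x ω : ℝ) ^ a ≤ 1 / 2 + (x ω : ℝ) * (1 / 2)
      linarith
    rw [integral_add (integrable_const _) (hxi.mul_const _), integral_mul_const] at h2
    simp only [integral_const, probReal_univ, smul_eq_mul, one_mul] at h2
    linarith
  have h2 : -(1 - (1 + ∫ ω, (x ω : ℝ) ∂P) / 2) ≤ ∫ ω, (x ω : ℝ) ^ a ∂P := by
    have h2 : ∫ ω, (-(1 / 2) + (x ω : ℝ) * (1 / 2)) ∂P ≤ ∫ ω, (x ω : ℝ) ^ a ∂P := by
      refine integral_mono ((integrable_const _).add (hxi.mul_const _)) hai fun ω => ?_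
      have h3 := odd_pow_le (t := -(x ω : ℝ)) (by linarith [(x ω).2.2])
        (by linarith [(x ω).2.1]) ha
      rw [ha.neg_pow] at h3
      show -(1 / 2) + (x ω : ℝ) * (1 / 2) ≤ (x ω : ℝ) ^ a
      linarith
    rw [integral_add (integrable_const _) (hxi.mul_const _), integral_mul_const] at h2
    simp only [integral_const, probReal_univ, smul_eq_mul, one_mul] at h2
    linarith
  have h3 : |∫ ω, (x ω : ℝ) ^ a ∂P| ≤ 1 - (1 - |∫ ω, (x ω : ℝ) ∂P|) / 2 := by
    have h4 := le_abs_self (∫ ω, (x ω : ℝ) ∂P)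
    have h5 := neg_abs_le (∫ ω, (x ω : ℝ) ∂P)
    rw [abs_le]
    constructor <;> linarith
  have h4 := Real.add_one_le_exp (-((1 - |∫ ω, (x ω : ℝ) ∂P|) / 2))
  linarith

theorem pf_SQ : T_SQ.{u} := by
  intro Ω _ P _ x hxm hxb S C c hC hc hW hS
  rw [Metric.tendsto_atTop]
  intro ε hε
  obtain ⟨y, hy1, hy2⟩ : ∃ y : ℕ, 1 ≤ y ∧ 2 * (C / y) < ε / 2 := by
    obtain ⟨y, hy⟩ := exists_nat_gt (4 * C / ε)
    have h0 : 0 < 4 * C / ε := by positivity
    have hy0 : (0 : ℝ) < y := h0.trans hy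
    refine ⟨y, by exact_mod_cast hy0, ?_⟩
    rw [div_lt_iff₀ hε] at hy
    rw [← mul_div_assoc, div_lt_iff₀ hy0]
    linarith
  have hexp : Tendsto (fun N => 2 * (C * Real.exp (-(c * (S N - S y)))) ^ 2) atTop (𝓝 0) := by
    have h1 : Tendsto (fun N => S N - S y) atTop atTop :=
      tendsto_atTop_add_const_right _ _ hS
    have h2 : Tendsto (fun N => -(c * (S N - S y))) atTop atBot :=
      tendsto_neg_atTop_atBot.comp (h1.const_mul_atTop hc)
    have h3 := (((Real.tendsto_exp_atBot.comp h2).const_mul C).pow 2).const_mul 2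
    simpa using h3
  have hev := (hexp.eventually (gt_mem_nhds (show (0 : ℝ) < ε / 2 by positivity))).and
    (eventually_ge_atTop 3)
  obtain ⟨N0, hN0⟩ := eventually_atTop.1 hev
  refine ⟨N0, fun N hN => ?_⟩
  obtain ⟨h1, hN3⟩ := hN0 N hN
  obtain ⟨W, hWm, hWb, hWi, hWl⟩ := hW y N hy1 hN3
  rw [Real.dist_0_eq_abs, abs_of_nonneg (integral_nonneg fun ω => sq_nonneg _)]
  obtain ⟨D, hD⟩ : ∃ D, D = C * Real.exp (-(c * (S N - S y))) := ⟨_, rfl⟩
  have hWi2 : Integrable (fun ω => W ω ^ 2) P := by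
    refine Integrable.of_bound (C := C ^ 2) (hWm.pow_const _).aestronglyMeasurable
      (Eventually.of_forall fun ω => ?_)
    rw [Real.norm_eq_abs, abs_pow]
    exact pow_le_pow_left₀ (abs_nonneg _) (hWb ω) _
  have hpt : ∀ ω, lavg N (x ω) ^ 2 ≤ W ω ^ 2 * 2 + 2 * D ^ 2 := by
    intro ω
    have h2 := hWl ω
    rw [← hD] at h2
    have h3 : (lavg N (x ω) - W ω) ^ 2 ≤ D ^ 2 := by
      rw [← sq_abs]
      exact pow_le_pow_left₀ (abs_nonneg _) h2 2
    nlinarith [sq_nonneg (lavg N (x ω) - 2 * W ω)]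
  have h2 : ∫ ω, lavg N (x ω) ^ 2 ∂P ≤ ∫ ω, (W ω ^ 2 * 2 + 2 * D ^ 2) ∂P := by
    refine integral_mono_of_nonneg (Eventually.of_forall fun ω => sq_nonneg _)
      ((hWi2.mul_const _).add (integrable_const _)) (Eventually.of_forall hpt)
  rw [integral_add (hWi2.mul_const _) (integrable_const _), integral_mul_const] at h2
  simp only [integral_const, probReal_univ, smul_eq_mul, one_mul] at h2
  rw [← hD] at h1
  linarith

end Pool.Agent.H75.RR
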