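import Pool.Agent.H92.RR.Targets

/-!
# A common subsequence (row RSUB of the board rr_modules)
-/

set_option autoImplicit false

open MeasureTheory ProbabilityTheory Filter Topology Finset
open scoped ENNReal

universe u

namespace Pool.Agent.H75.RR

open Pool.Agent.H89.MT Pool.Agent.H92.RR

/-- Random variables with summable second moments tend to `0` almost surely. -/
theorem ae_tendsto_of_sq' {Ω : Type u} [MeasurableSpace Ω] {P : Measure Ω}
    [IsProbabilityMeasure P] (W : ℕ → Ω → ℝ) (hWm : ∀ j, Measurable (W j))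
    (hWb : ∀ j, ∃ C, ∀ ω, |W j ω| ≤ C) (hsum : Summable fun j => ∫ ω, W j ω ^ 2 ∂P) :
    ∀ᵐ ω ∂P, Tendsto (fun j => W j ω) atTop (𝓝 0) := by
  have hf0 : ∀ j ω, 0 ≤ W j ω ^ 2 := fun j ω => sq_nonneg _
  have hfm : ∀ j, Measurable fun ω => W j ω ^ 2 := fun j => (hWm j).pow_const _
  have hfi : ∀ j, Integrable (fun ω => W j ω ^ 2) P := by
    intro j
    obtain ⟨C, hC⟩ := hWb j
    refine Integrable.of_bound (C := C ^ 2) (hfm j).aestronglyMeasurable ?_
    refine Eventually.of_forall fun ω => ?_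
    rw [Real.norm_eq_abs, abs_pow]
    exact pow_le_pow_left₀ (abs_nonneg _) (hC ω) _
  have hlin : ∫⁻ ω, ∑' j, ENNReal.ofReal (W j ω ^ 2) ∂P ≠ ⊤ := by
    rw [lintegral_tsum fun j => (hfm j).ennreal_ofReal.aemeasurable]
    have h1 : ∀ j, ∫⁻ ω, ENNReal.ofReal (W j ω ^ 2) ∂P =
        ENNReal.ofReal (∫ ω, W j ω ^ 2 ∂P) := by
      intro j
      exact (ofReal_integral_eq_lintegral_ofReal (hfi j)
        (Eventually.of_forall (hf0 j))).symm
    simp_rw [h1]
    rw [← ENNReal.ofReal_tsum_of_nonneg (fun j => integral_nonneg (hf0 j)) hsum]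
    exact ENNReal.ofReal_ne_top
  have hae := ae_lt_top' (Measurable.ennreal_tsum fun j => (hfm j).ennreal_ofReal).aemeasurable
    hlin
  filter_upwards [hae] with ω hω
  have h1 := ENNReal.tendsto_atTop_zero_of_tsum_ne_top hω.ne
  have h2 : Tendsto (fun j => W j ω ^ 2) atTop (𝓝 0) := by
    have h3 := (ENNReal.tendsto_toReal ENNReal.zero_ne_top).comp h1
    rw [ENNReal.toReal_zero] at h3
    refine h3.congr fun j => ?_
    simp only [Function.comp]
    exact ENNReal.toReal_ofReal (hf0 j ω)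
  rw [Metric.tendsto_atTop]
  intro ε hε
  have h3 : ∀ᶠ j in atTop, W j ω ^ 2 < ε ^ 2 := h2.eventually (gt_mem_nhds (by positivity))
  obtain ⟨j0, hj0⟩ := eventually_atTop.1 h3
  refine ⟨j0, fun j hj => ?_⟩
  rw [Real.dist_0_eq_abs]
  have h4 := hj0 j hj
  rw [← sq_abs] at h4
  exact lt_of_pow_lt_pow_left₀ _ hε.le h4

theorem pf_SUB : T_SUB.{u} := by
  intro Ω _ P _ ι _ x hxm hxb hx
  rcases isEmpty_or_nonempty ι with hι | hι
  · exact ⟨id, tendsto_id, Eventually.of_forall fun ω i => hι.elim i⟩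
  · obtain ⟨e, he⟩ := exists_surjective_nat ι
    have hN : ∀ k : ℕ, ∃ N : ℕ, k ≤ N ∧ ∀ i ≤ k, ∫ ω, x (e i) N ω ^ 2 ∂P ≤ (1 / 4) ^ k := by
      intro k
      have h1 : ∀ᶠ N : ℕ in atTop, ∀ i ∈ Finset.range (k + 1),
          ∫ ω, x (e i) N ω ^ 2 ∂P < (1 / 4) ^ k := by
        rw [Filter.eventually_all_finset]
        intro i _
        exact (hx (e i)).eventually (gt_mem_nhds (by positivity))
      obtain ⟨N, hN1, hN2⟩ := (h1.and (eventually_ge_atTop k)).exists
      exact ⟨N, hN2, fun i hi => (hN1 i (Finset.mem_range.2 (by omega))).le⟩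
    choose N hN1 hN2 using hN
    refine ⟨N, tendsto_atTop_mono hN1 tendsto_id, ?_⟩
    have hall : ∀ i : ℕ, ∀ᵐ ω ∂P, Tendsto (fun k => x (e i) (N k) ω) atTop (𝓝 0) := by
      intro i
      refine ae_tendsto_of_sq' (fun k => x (e i) (N k)) (fun k => hxm _ _)
        (fun k => hxb _ _) ?_
      refine Summable.of_norm_bounded_eventually_nat (g := fun k : ℕ => (1 / 4 : ℝ) ^ k)
        (summable_geometric_of_lt_one (by norm_num) (by norm_num)) ?_
      filter_upwards [eventually_ge_atTop i] with k hk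
      rw [Real.norm_eq_abs, abs_of_nonneg (integral_nonneg fun ω => sq_nonneg _)]
      exact hN2 k i hk
    filter_upwards [ae_all_iff.2 hall] with ω hω
    intro i
    obtain ⟨j, rfl⟩ := he i
    exact hω j

end Pool.Agent.H75.RR
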