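import Pool.Agent.H92.RR.Targets
import Pool.Agent.H86.MT.DIV

/-!
# The variance which comes from the large primes (row RVAR of the board rr_modules)
-/

set_option autoImplicit false

open MeasureTheory ProbabilityTheory Filter Topology Finset

universe u

namespace Pool.Agent.H75.RR

open Pool.Agent.H89.MT Pool.Agent.H92.RR

/-- the numbers `n ≤ N` with a prime `p` dividing `n + h` for some `h ∈ H` -/
theorem sum_div_le (H : Finset ℕ) {p N : ℕ} (hp : p.Prime) (hN : 3 ≤ N) :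
    ∑ n ∈ (Icc 1 N).filter (fun n => p ∣ PP H n), (1 : ℝ) / n ≤
      (∑ h ∈ H, ((h : ℝ) + 1) * (2 + Real.log (1 + h))) / p * Real.log N := by
  have hp0 : (0 : ℝ) < p := by exact_mod_cast hp.pos
  have hN3 : (3 : ℝ) ≤ N := by exact_mod_cast hN
  have hN0 : (0 : ℝ) < N := by linarith
  have hlog : 1 ≤ Real.log N := by
    rw [Real.le_log_iff_exp_le hN0]
    exact (Real.exp_one_lt_d9.le.trans (by norm_num)).trans hN3
  have h1 : ∑ n ∈ (Icc 1 N).filter (fun n => p ∣ PP H n), (1 : ℝ) / n ≤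
      ∑ h ∈ H, ∑ n ∈ (Icc 1 N).filter (fun n => p ∣ n + h), (1 : ℝ) / n := by
    simp only [Finset.sum_filter]
    rw [Finset.sum_comm]
    refine Finset.sum_le_sum fun n _ => ?_
    by_cases hd : p ∣ PP H n
    · rw [if_pos hd]
      obtain ⟨h, hh, hdh⟩ := (Prime.dvd_finsetProd_iff hp.prime _).1 hd
      have h2 := Finset.single_le_sum (f := fun h => if p ∣ n + h then (1 : ℝ) / n else 0)
        (fun h _ => by split_ifs <;> positivity) hh
      simp only [if_pos hdh] at h2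
      exact h2
    · rw [if_neg hd]
      exact Finset.sum_nonneg fun h _ => by split_ifs <;> positivity
  refine h1.trans ?_
  rw [Finset.sum_div, Finset.sum_mul]
  refine Finset.sum_le_sum fun h _ => ?_
  have h2 := Pool.Agent.H86.MT.pf_DIV h p N hp.one_lt.le
  refine h2.trans ?_
  have h3 : Real.log ((N : ℝ) + h) ≤ Real.log N + Real.log (1 + h) := by
    rw [← Real.log_mul hN0.ne' (by positivity)]
    refine Real.log_le_log (by positivity) ?_
    have : (0 : ℝ) ≤ h := Nat.cast_nonneg h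
    nlinarith
  have h4 : 0 ≤ Real.log (1 + (h : ℝ)) := Real.log_nonneg (by
    have : (0 : ℝ) ≤ h := Nat.cast_nonneg h
    linarith)
  have h5 : 1 + Real.log ((N : ℝ) + h) ≤ (2 + Real.log (1 + h)) * Real.log N := by nlinarith
  have h6 : (0 : ℝ) ≤ ((h : ℝ) + 1) / p := by positivity
  calc ((h : ℝ) + 1) / p * (1 + Real.log ((N : ℝ) + h))
      ≤ ((h : ℝ) + 1) / p * ((2 + Real.log (1 + h)) * Real.log N) :=
        mul_le_mul_of_nonneg_left h5 h6
    _ = ((h : ℝ) + 1) * (2 + Real.log (1 + h)) / p * Real.log N := by ring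

theorem pf_VAR : T_VAR.{u} := by
  intro H
  obtain ⟨D, hD⟩ : ∃ D : ℝ, D = ∑ h ∈ H, ((h : ℝ) + 1) * (2 + Real.log (1 + h)) := ⟨_, rfl⟩
  have hD0 : 0 ≤ D := by
    rw [hD]
    refine Finset.sum_nonneg fun h _ => ?_
    have h4 : 0 ≤ Real.log (1 + (h : ℝ)) := Real.log_nonneg (by
      have : (0 : ℝ) ≤ h := Nat.cast_nonneg h
      linarith)
    positivity
  refine ⟨4 * D ^ 2 + 1, by positivity, ?_⟩
  intro Ω _ P _ w hwm hwb y N hy hN hort
  have hN3 : (3 : ℝ) ≤ N := by exact_mod_cast hN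
  have hN0 : (0 : ℝ) < N := by linarith
  have hlog : 1 ≤ Real.log N := by
    rw [Real.le_log_iff_exp_le hN0]
    exact (Real.exp_one_lt_d9.le.trans (by norm_num)).trans hN3
  have hy0 : (0 : ℝ) < y := by exact_mod_cast hy
  have hint : ∀ n m, Integrable (fun ω => w ω n * w ω m) P := by
    intro n m
    refine Integrable.of_bound (C := 4) ((hwm n).mul (hwm m)).aestronglyMeasurable
      (Eventually.of_forall fun ω => ?_)
    rw [Real.norm_eq_abs, abs_mul]
    have h1 := hwb ω n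
    have h2 := hwb ω m
    have h3 := abs_nonneg (w ω n)
    have h4 := abs_nonneg (w ω m)
    nlinarith
  have hbd : ∀ n m, ∫ ω, w ω n * w ω m ∂P ≤ 4 := by
    intro n m
    have h1 := norm_integral_le_of_norm_le_const (μ := P) (C := 4)
      (f := fun ω => w ω n * w ω m) (Eventually.of_forall fun ω => by
        rw [Real.norm_eq_abs, abs_mul]
        have h1 := hwb ω n
        have h2 := hwb ω m
        have h3 := abs_nonneg (w ω n)
        have h4 := abs_nonneg (w ω m)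
        nlinarith)
    rw [Real.norm_eq_abs] at h1
    simp only [probReal_univ, mul_one] at h1
    exact (le_abs_self _).trans h1
  -- the primes
  obtain ⟨Q, hQ⟩ : ∃ Q : Finset ℕ, Q = (Ioc y (y + PP H N)).filter Nat.Prime := ⟨_, rfl⟩
  have hpair : ∀ n ∈ Icc 1 N, ∀ m ∈ Icc 1 N, ∫ ω, w ω n * w ω m ∂P ≤
      ∑ p ∈ Q, 4 * ((if p ∣ PP H n then 1 else 0) * (if p ∣ PP H m then 1 else 0)) := by
    intro n hn m hm
    rw [mem_Icc] at hn hm
    by_cases hex : ∃ p, p.Prime ∧ y < p ∧ p ∣ PP H n ∧ p ∣ PP H m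
    · obtain ⟨p, hp, hyp, hpn, hpm⟩ := hex
      have hPn : 0 < PP H n := Finset.prod_pos fun h _ => by omega
      have hle : PP H n ≤ PP H N := Finset.prod_le_prod' fun h _ => by omega
      have hpQ : p ∈ Q := by
        rw [hQ, mem_filter, mem_Ioc]
        have := Nat.le_of_dvd hPn hpn
        exact ⟨⟨hyp, by omega⟩, hp⟩
      have h2 := Finset.single_le_sum (f := fun p =>
        (4 : ℝ) * ((if p ∣ PP H n then 1 else 0) * (if p ∣ PP H m then 1 else 0)))
        (fun p _ => by split_ifs <;> norm_num) hpQ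
      simp only [if_pos hpn, if_pos hpm, mul_one] at h2
      exact (hbd n m).trans h2
    · push Not at hex
      rw [hort n m (by omega) hn.2 (by omega) hm.2 (fun p hp hyp h => hex p hp hyp h.1 h.2)]
      exact Finset.sum_nonneg fun p _ => by split_ifs <;> norm_num
  -- expand the square
  have hsq : ∀ ω, lavg N (w ω) ^ 2 = ∑ n ∈ Icc 1 N, ∑ m ∈ Icc 1 N,
      w ω n * w ω m * (1 / ((n : ℝ) * m * Real.log N ^ 2)) := by
    intro ω
    unfold lavg
    rw [div_pow, sq (∑ n ∈ Icc 1 N, w ω n / n), Finset.sum_mul_sum, Finset.sum_div]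
    refine Finset.sum_congr rfl fun n _ => ?_
    rw [Finset.sum_div]
    refine Finset.sum_congr rfl fun m _ => ?_
    rw [div_mul_div_comm, div_div, mul_one_div]
  have hE : ∫ ω, lavg N (w ω) ^ 2 ∂P = ∑ n ∈ Icc 1 N, ∑ m ∈ Icc 1 N,
      (∫ ω, w ω n * w ω m ∂P) * (1 / ((n : ℝ) * m * Real.log N ^ 2)) := by
    rw [integral_congr_ae (Eventually.of_forall hsq), integral_finsetSum]
    · refine Finset.sum_congr rfl fun n _ => ?_
      rw [integral_finsetSum]
      · refine Finset.sum_congr rfl fun m _ => ?_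
        rw [integral_mul_const]
      · exact fun m _ => (hint n m).mul_const _
    · exact fun n _ => integrable_finsetSum _ fun m _ => (hint n m).mul_const _
  rw [hE]
  have h1 : ∑ n ∈ Icc 1 N, ∑ m ∈ Icc 1 N,
      (∫ ω, w ω n * w ω m ∂P) * (1 / ((n : ℝ) * m * Real.log N ^ 2)) ≤
      ∑ n ∈ Icc 1 N, ∑ m ∈ Icc 1 N, (∑ p ∈ Q, 4 * ((if p ∣ PP H n then 1 else 0) *
        (if p ∣ PP H m then 1 else 0))) * (1 / ((n : ℝ) * m * Real.log N ^ 2)) := by
    refine Finset.sum_le_sum fun n hn => Finset.sum_le_sum fun m hm => ?_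
    exact mul_le_mul_of_nonneg_right (hpair n hn m hm) (by positivity)
  refine h1.trans ?_
  -- exchange the sums
  have h2 : ∑ n ∈ Icc 1 N, ∑ m ∈ Icc 1 N, (∑ p ∈ Q, 4 * ((if p ∣ PP H n then 1 else 0) *
        (if p ∣ PP H m then 1 else 0))) * (1 / ((n : ℝ) * m * Real.log N ^ 2)) =
      ∑ p ∈ Q, 4 * (∑ n ∈ (Icc 1 N).filter (fun n => p ∣ PP H n), (1 : ℝ) / n) ^ 2 /
        Real.log N ^ 2 := by
    simp only [Finset.sum_mul]
    rw [Finset.sum_congr rfl fun n _ => Finset.sum_comm, Finset.sum_comm]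
    refine Finset.sum_congr rfl fun p _ => ?_
    rw [Finset.sum_filter, sq (∑ n ∈ Icc 1 N, _), Finset.sum_mul_sum, Finset.mul_sum,
      Finset.sum_div]
    refine Finset.sum_congr rfl fun n _ => ?_
    rw [Finset.mul_sum, Finset.sum_div]
    refine Finset.sum_congr rfl fun m _ => ?_
    split_ifs
    · rw [div_mul_div_comm, mul_one, mul_one, mul_one_div, mul_one_div, div_div]
    · simp
    · simp
    · simp
  rw [h2]
  have h3 : ∀ p ∈ Q, 4 * (∑ n ∈ (Icc 1 N).filter (fun n => p ∣ PP H n), (1 : ℝ) / n) ^ 2 /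
      Real.log N ^ 2 ≤ 4 * D ^ 2 * ((p : ℝ) ^ 2)⁻¹ := by
    intro p hp
    rw [hQ, mem_filter] at hp
    have hp0 : (0 : ℝ) < p := by exact_mod_cast hp.2.pos
    have h4 := sum_div_le H hp.2 hN
    rw [← hD] at h4
    have h5 : (0 : ℝ) ≤ ∑ n ∈ (Icc 1 N).filter (fun n => p ∣ PP H n), (1 : ℝ) / n :=
      Finset.sum_nonneg fun n _ => by positivity
    have h6 := pow_le_pow_left₀ h5 h4 2
    rw [div_le_iff₀ (by positivity)]
    calc 4 * (∑ n ∈ (Icc 1 N).filter (fun n => p ∣ PP H n), (1 : ℝ) / n) ^ 2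
        ≤ 4 * (D / p * Real.log N) ^ 2 := by linarith
      _ = 4 * D ^ 2 * ((p : ℝ) ^ 2)⁻¹ * Real.log N ^ 2 := by
        field_simp
  refine (Finset.sum_le_sum h3).trans ?_
  rw [← Finset.mul_sum]
  have h7 : ∑ p ∈ Q, ((p : ℝ) ^ 2)⁻¹ ≤ (y : ℝ)⁻¹ := by
    have h8 : ∑ p ∈ Q, ((p : ℝ) ^ 2)⁻¹ ≤ ∑ p ∈ Ioc y (y + PP H N), ((p : ℝ) ^ 2)⁻¹ := by
      rw [hQ]
      exact Finset.sum_le_sum_of_subset_of_nonneg (Finset.filter_subset _ _)
        fun p _ _ => by positivity
    have h9 := sum_Ioc_inv_sq_le_sub (α := ℝ) (k := y) (n := y + PP H N) (by omega)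
      (Nat.le_add_right _ _)
    have h10 : (0 : ℝ) ≤ ((y + PP H N : ℕ) : ℝ)⁻¹ := by positivity
    linarith
  have h8 : 4 * D ^ 2 * ∑ p ∈ Q, ((p : ℝ) ^ 2)⁻¹ ≤ 4 * D ^ 2 * (y : ℝ)⁻¹ :=
    mul_le_mul_of_nonneg_left h7 (by positivity)
  refine h8.trans ?_
  rw [← div_eq_mul_inv]
  exact div_le_div_of_nonneg_right (by linarith) hy0.le

end Pool.Agent.H75.RR
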